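import Pool.Agent.U481.GL.Stm

set_option autoImplicit false

/-! Project GL, package INT. -/

open MeasureTheory Filter Topology Set
open scoped ENNReal NNReal Real

namespace Pool.Agent.U479.GL.INT

open Pool.Agent.U481.HW Pool.Agent.U481.GL

/-- `w ≠ 0` almost everywhere. -/
theorem ne_zero_ae {p : ℝ} (hp : 1 < p) {w : ℝ → ℝ≥0∞} {K : ℝ≥0∞} (h : ApC p w K) :
    ∀ᵐ x, w x ≠ 0 := by
  have h1 : ∀ n : ℕ, ∀ᵐ x, x ∈ Ioo (-(n : ℝ)) n → w x ≠ 0 := by
    intro n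
    have hm : Measurable fun x => (w x) ^ (-1 / (p - 1)) := h.meas.pow_const _
    have h2 := ae_lt_top (μ := volume.restrict (Ioo (-(n : ℝ)) n)) hm (h.sfin _ _).ne
    rw [ae_restrict_iff' measurableSet_Ioo] at h2
    filter_upwards [h2] with x hx hxn h0
    have := hx hxn
    rw [h0, ENNReal.zero_rpow_of_neg (div_neg_of_neg_of_pos (by norm_num) (by linarith))] at this
    exact lt_irrefl _ this
  rw [← ae_all_iff] at h1
  filter_upwards [h1] with x hx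
  obtain ⟨n, hn⟩ := exists_nat_gt |x|
  exact hx n (abs_lt.1 hn)

/-- Some symmetric interval of length at least one has positive mass. -/
theorem exists_pos {p : ℝ} {U : ℝ → ℝ≥0} (h : Ap p U) :
    ∃ R : ℝ, 1 ≤ R ∧ (∫⁻ x in Ioo (-R) R, (U x : ℝ≥0∞)) ≠ 0 := by
  by_contra hcon
  push Not at hcon
  apply h.1.ne
  have hm : Measurable fun x => (U x : ℝ≥0∞) := h.1.meas.coe_nnreal_ennreal
  have h1 : ∀ n : ℕ, ∀ᵐ x, x ∈ Ioo (-((n : ℝ) + 1)) (n + 1) → (U x : ℝ≥0∞) = 0 := by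
    intro n
    have h2 := hcon ((n : ℝ) + 1) (by linarith [n.cast_nonneg (α := ℝ)])
    rw [lintegral_eq_zero_iff hm] at h2
    have h3 := (ae_restrict_iff' measurableSet_Ioo).1 h2
    filter_upwards [h3] with x hx hxn
    exact hx hxn
  rw [← ae_all_iff] at h1
  filter_upwards [h1] with x hx
  obtain ⟨n, hn⟩ := exists_nat_gt |x|
  have := hx n (abs_lt.1 (hn.trans (by linarith)))
  exact_mod_cast this

/-- Hölder on a set. -/
theorem holder_set {p : ℝ} (hp : 1 < p) {w : ℝ → ℝ≥0∞} (hw : Measurable w)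
    (hw0 : ∀ᵐ x, w x ≠ 0) (hwt : ∀ x, w x ≠ ⊤) {g : ℝ → ℝ≥0∞} (hg : AEMeasurable g volume)
    (s : Set ℝ) :
    (∫⁻ x in s, g x) ≤ (∫⁻ x, g x ^ p * w x) ^ (1 / p) *
      ((∫⁻ x in s, (w x) ^ (-1 / (p - 1))) ^ (p - 1)) ^ (1 / p) := by
  have hp0 : 0 < p := by linarith
  have hp1 : 0 < p - 1 := by linarith
  have hpq : p.HolderConjugate (p / (p - 1)) := Real.HolderConjugate.conjExponent hp
  have h1 := ENNReal.lintegral_mul_le_Lp_mul_Lq (volume.restrict s) hpq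
    (f := fun x => g x * (w x) ^ (1 / p)) (g := fun x => (w x) ^ (-(1 / p)))
    (hg.restrict.mul (hw.pow_const _).aemeasurable) (hw.pow_const _).aemeasurable
  have h2 : (∫⁻ x in s, g x) = ∫⁻ x in s, ((fun x => g x * (w x) ^ (1 / p)) *
      fun x => (w x) ^ (-(1 / p))) x := by
    refine lintegral_congr_ae ?_
    filter_upwards [ae_restrict_of_ae hw0] with x hx
    simp only [Pi.mul_apply]
    rw [mul_assoc, ← ENNReal.rpow_add _ _ hx (hwt x), add_neg_cancel, ENNReal.rpow_zero, mul_one]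
  have h3 : (∫⁻ x in s, (g x * (w x) ^ (1 / p)) ^ p) ≤ ∫⁻ x, g x ^ p * w x := by
    refine (setLIntegral_le_lintegral _ _).trans (le_of_eq ?_)
    refine lintegral_congr fun x => ?_
    rw [ENNReal.mul_rpow_of_nonneg _ _ hp0.le, ← ENNReal.rpow_mul, one_div_mul_cancel hp0.ne',
      ENNReal.rpow_one]
  have h4 : (∫⁻ x in s, ((w x) ^ (-(1 / p))) ^ (p / (p - 1))) =
      ∫⁻ x in s, (w x) ^ (-1 / (p - 1)) := by
    refine lintegral_congr fun x => ?_
    rw [← ENNReal.rpow_mul]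
    congr 1
    field_simp
  rw [h2]
  refine h1.trans ?_
  rw [h4]
  refine mul_le_mul' (ENNReal.rpow_le_rpow h3 (by positivity)) (le_of_eq ?_)
  rw [← ENNReal.rpow_mul]
  congr 1
  field_simp

/-- The pointwise bound. -/
theorem bound_pt {R : ℝ} (hR : 1 ≤ R) (x : ℝ) :
    ENNReal.ofReal (1 / (1 + x ^ 2)) ≤
      ∑' j : ℕ, ENNReal.ofReal (4 * (1 / 4) ^ j) *
        (Ioo (-(R * 2 ^ j)) (R * 2 ^ j)).indicator (fun _ => (1 : ℝ≥0∞)) x := by
  classical
  have hex : ∃ j : ℕ, |x| < R * 2 ^ j := by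
    obtain ⟨j, hj⟩ := pow_unbounded_of_one_lt |x| (by norm_num : (1 : ℝ) < 2)
    refine ⟨j, hj.trans_le ?_⟩
    have : (0 : ℝ) < 2 ^ j := by positivity
    nlinarith
  obtain ⟨j, hj, hmin⟩ : ∃ j : ℕ, |x| < R * 2 ^ j ∧ ∀ i < j, ¬ |x| < R * 2 ^ i :=
    ⟨Nat.find hex, Nat.find_spec hex, fun i hi => Nat.find_min hex hi⟩
  refine le_trans ?_ (ENNReal.le_tsum j)
  have hjm : x ∈ Ioo (-(R * 2 ^ j)) (R * 2 ^ j) := abs_lt.1 hj
  rw [indicator_of_mem hjm, mul_one]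
  refine ENNReal.ofReal_le_ofReal ?_
  have hx0 : (0 : ℝ) < 1 + x ^ 2 := by positivity
  rcases Nat.eq_zero_or_pos j with rfl | hj0
  · rw [pow_zero, mul_one, div_le_iff₀ hx0]
    nlinarith [sq_nonneg x]
  · obtain ⟨i, rfl⟩ : ∃ i, j = i + 1 := ⟨j - 1, by omega⟩
    have h1 := hmin i (by omega)
    push Not at h1
    have h2 : (0 : ℝ) < 2 ^ i := by positivity
    have h3 : (2 : ℝ) ^ i ≤ |x| := le_trans (by nlinarith) h1
    have h4 : ((2 : ℝ) ^ i) ^ 2 ≤ x ^ 2 := by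
      rw [← sq_abs x]
      exact pow_le_pow_left₀ h2.le h3 2
    have h5 : (4 : ℝ) ^ i = (2 ^ i) ^ 2 := by
      rw [← pow_mul, mul_comm, pow_mul]; norm_num
    have h6 : (4 : ℝ) * (1 / 4) ^ (i + 1) = 1 / 4 ^ i := by
      rw [pow_succ, one_div_pow]; ring
    rw [h6, h5]
    exact one_div_le_one_div_of_le (by positivity) (by linarith)

theorem main (hapc : S_apc) : S_int := by
  intro p hp U hU f hf hfin
  obtain ⟨K, hK⟩ := hapc p hp U hU
  have hp0 : 0 < p := by linarith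
  obtain ⟨w, hw⟩ : ∃ w : ℝ → ℝ≥0∞, w = fun x => (U x : ℝ≥0∞) := ⟨_, rfl⟩
  have hwx : ∀ x, (U x : ℝ≥0∞) = w x := fun x => by rw [hw]
  rw [← hw] at hK
  obtain ⟨R, hR, hR0⟩ := exists_pos hU
  simp only [hwx] at hR0 hfin
  have hwt : ∀ x, w x ≠ ⊤ := fun x => by rw [hw]; exact ENNReal.coe_ne_top
  have hw0 := ne_zero_ae hp hK
  have hg : AEMeasurable (fun x => ‖f x‖ₑ) volume := hf.enorm
  -- the constant
  set A := ∫⁻ x, ‖f x‖ₑ ^ p * w x with hA
  set W := ∫⁻ x in Ioo (-R) R, w x with hW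
  have hWt : W ≠ ⊤ := (hK.fin _ _).ne
  obtain ⟨C, hC⟩ : ∃ C : ℝ≥0∞, C = A ^ (1 / p) * (K / W) ^ (1 / p) := ⟨_, rfl⟩
  have hCt : C < ⊤ := by
    rw [hC]
    refine ENNReal.mul_lt_top (ENNReal.rpow_lt_top_of_nonneg (by positivity) hfin.ne)
      (ENNReal.rpow_lt_top_of_nonneg (by positivity) (ENNReal.div_lt_top hK.Kfin.ne hR0).ne)
  have key : ∀ j : ℕ, (∫⁻ x in Ioo (-(R * 2 ^ j)) (R * 2 ^ j), ‖f x‖ₑ) ≤
      C * ENNReal.ofReal (2 * R * 2 ^ j) := by
    intro j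
    have h2j : (1 : ℝ) ≤ 2 ^ j := one_le_pow₀ (by norm_num)
    have hlt : -(R * 2 ^ j) < R * 2 ^ j := by nlinarith
    have h1 := hK.ap _ _ hlt
    have e1 : R * 2 ^ j - -(R * 2 ^ j) = 2 * R * 2 ^ j := by ring
    rw [e1] at h1
    set S := (∫⁻ x in Ioo (-(R * 2 ^ j)) (R * 2 ^ j), w x ^ (-1 / (p - 1))) ^ (p - 1) with hS
    have h2 : W ≤ ∫⁻ x in Ioo (-(R * 2 ^ j)) (R * 2 ^ j), w x := by
      refine lintegral_mono_set (Ioo_subset_Ioo ?_ ?_) <;> nlinarith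
    have h3 : W * S ≤ K * ENNReal.ofReal (2 * R * 2 ^ j) ^ p :=
      (mul_le_mul' h2 le_rfl).trans h1
    have h4 : S ≤ K / W * ENNReal.ofReal (2 * R * 2 ^ j) ^ p := by
      have h5 : S ≤ K * ENNReal.ofReal (2 * R * 2 ^ j) ^ p / W := by
        rw [ENNReal.le_div_iff_mul_le (Or.inl hR0) (Or.inl hWt), mul_comm]
        exact h3
      refine h5.trans (le_of_eq ?_)
      rw [div_eq_mul_inv, div_eq_mul_inv]
      ring
    have h5 := holder_set hp hK.meas hw0 hwt hg (Ioo (-(R * 2 ^ j)) (R * 2 ^ j))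
    refine h5.trans ?_
    rw [hC, mul_assoc]
    refine mul_le_mul' le_rfl ?_
    refine (ENNReal.rpow_le_rpow h4 (by positivity)).trans (le_of_eq ?_)
    rw [ENNReal.mul_rpow_of_nonneg _ _ (by positivity), ← ENNReal.rpow_mul,
      mul_one_div_cancel hp0.ne', ENNReal.rpow_one]
  -- the integral
  have hmain : (∫⁻ x, ‖f x‖ₑ * ENNReal.ofReal (1 / (1 + x ^ 2))) < ⊤ := by
    have h1 : (∫⁻ x, ‖f x‖ₑ * ENNReal.ofReal (1 / (1 + x ^ 2))) ≤
        ∑' j : ℕ, ENNReal.ofReal (4 * (1 / 4) ^ j) *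
          ∫⁻ x in Ioo (-(R * 2 ^ j)) (R * 2 ^ j), ‖f x‖ₑ := by
      calc (∫⁻ x, ‖f x‖ₑ * ENNReal.ofReal (1 / (1 + x ^ 2)))
          ≤ ∫⁻ x, ∑' j : ℕ, ENNReal.ofReal (4 * (1 / 4) ^ j) *
            (Ioo (-(R * 2 ^ j)) (R * 2 ^ j)).indicator (fun x => ‖f x‖ₑ) x := by
            refine lintegral_mono fun x => ?_
            refine (mul_le_mul' le_rfl (bound_pt hR x)).trans (le_of_eq ?_)
            rw [← ENNReal.tsum_mul_left]
            refine tsum_congr fun j => ?_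
            by_cases hx : x ∈ Ioo (-(R * 2 ^ j)) (R * 2 ^ j)
            · rw [indicator_of_mem hx, indicator_of_mem hx]; ring
            · rw [indicator_of_notMem hx, indicator_of_notMem hx]; ring
        _ = ∑' j : ℕ, ∫⁻ x, ENNReal.ofReal (4 * (1 / 4) ^ j) *
            (Ioo (-(R * 2 ^ j)) (R * 2 ^ j)).indicator (fun x => ‖f x‖ₑ) x :=
            lintegral_tsum fun j => ((hg.indicator measurableSet_Ioo).const_mul _)
        _ = _ := by
            refine tsum_congr fun j => ?_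
            rw [lintegral_const_mul'' _ (hg.indicator measurableSet_Ioo),
              lintegral_indicator measurableSet_Ioo]
    refine h1.trans_lt ?_
    have h2 : (∑' j : ℕ, ENNReal.ofReal (4 * (1 / 4) ^ j) *
          ∫⁻ x in Ioo (-(R * 2 ^ j)) (R * 2 ^ j), ‖f x‖ₑ) ≤
        ∑' j : ℕ, C * (ENNReal.ofReal (8 * R) * ENNReal.ofReal ((1 / 2) ^ j)) := by
      refine ENNReal.tsum_le_tsum fun j => ?_
      refine (mul_le_mul' le_rfl (key j)).trans (le_of_eq ?_)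
      rw [mul_left_comm, ← ENNReal.ofReal_mul (by positivity), ← ENNReal.ofReal_mul (by positivity)]
      congr 2
      have : ((1 : ℝ) / 4) ^ j * 2 ^ j = (1 / 2) ^ j := by
        rw [← mul_pow]; norm_num
      linear_combination (8 * R) * this
    refine h2.trans_lt ?_
    rw [ENNReal.tsum_mul_left, ENNReal.tsum_mul_left]
    refine ENNReal.mul_lt_top hCt (ENNReal.mul_lt_top ENNReal.ofReal_lt_top ?_)
    rw [← ENNReal.ofReal_tsum_of_nonneg (fun n => by positivity)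
      (summable_geometric_of_lt_one (by norm_num) (by norm_num))]
    exact ENNReal.ofReal_lt_top
  have hmeas : AEStronglyMeasurable (fun x : ℝ => (((1 + x ^ 2 : ℝ) : ℂ))⁻¹) volume := by
    refine Measurable.aestronglyMeasurable ?_
    exact (Complex.measurable_ofReal.comp (by fun_prop)).inv
  refine ⟨?_, ?_⟩
  · simp only [div_eq_mul_inv]
    exact hf.mul hmeas
  · refine lt_of_le_of_lt (lintegral_mono fun x => ?_) hmain
    show ‖f x / ((1 + x ^ 2 : ℝ) : ℂ)‖ₑ ≤ ‖f x‖ₑ * ENNReal.ofReal (1 / (1 + x ^ 2))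
    have e1 : f x / ((1 + x ^ 2 : ℝ) : ℂ) = f x * (((1 / (1 + x ^ 2) : ℝ)) : ℂ) := by
      rw [div_eq_mul_inv, one_div, Complex.ofReal_inv]
    rw [e1, enorm_mul]
    refine mul_le_mul' le_rfl (le_of_eq ?_)
    rw [← ofReal_norm_eq_enorm, Complex.norm_real, Real.norm_of_nonneg (by positivity)]

end Pool.Agent.U479.GL.INT
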